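import Mathlib

namespace Pool.Agent.Results.MP_e8bb91_co.No

open Finset SimpleGraph

/-- The point at distance `i` from `u` on the path of length `m` replacing the edge `uv`, encoded by
the weights `m - i` on `u` and `i` on `v`. -/
def pt {V : Type} [DecidableEq V] (m : ℕ) (u v : V) (i : ℕ) : V → ℕ :=
  Pi.single u (m - i) + Pi.single v i

/-- The fractional power: every edge of `G` is replaced by a path of length `m`. -/
def subdiv {V : Type} [DecidableEq V] (G : SimpleGraph V) (m : ℕ) :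
    SimpleGraph {f : V → ℕ // ∃ u v i, (u = v ∨ G.Adj u v) ∧ i ≤ m ∧ f = pt m u v i} :=
  SimpleGraph.fromRel fun f g => ∃ u v i, G.Adj u v ∧ i < m ∧ f.1 = pt m u v i ∧ g.1 = pt m u v (i + 1)

/-- `S` is a resolving set. -/
def Resolving {V : Type} (G : SimpleGraph V) (S : Finset V) : Prop :=
  ∀ u v, (∀ w ∈ S, G.dist u w = G.dist v w) → u = v

/-- The answers received before round `t` (latest first); the cop probes `σ` of this list. -/
noncomputable def ans {W : Type} (H : SimpleGraph W) (σ : List ℕ → W) (r : ℕ → W) : ℕ → List ℕ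
  | 0 => []
  | t + 1 => H.dist (σ (ans H σ r t)) (r t) :: ans H σ r t

/-- The positions compatible with the answers of the rounds `0, …, t` and the movement rule. -/
def poss {W : Type} (H : SimpleGraph W) (σ : List ℕ → W) (r : ℕ → W) : ℕ → Set W
  | 0 => {v | H.dist (σ []) v = H.dist (σ []) (r 0)}
  | t + 1 => {v | (∃ u ∈ poss H σ r t, u = v ∨ H.Adj u v) ∧
      H.dist (σ (ans H σ r (t + 1))) v = H.dist (σ (ans H σ r (t + 1))) (r (t + 1))}

/-- The cop has a strategy locating every robber after finitely many rounds. -/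
def CopWin {W : Type} (H : SimpleGraph W) : Prop :=
  ∃ σ : List ℕ → W, ∀ r : ℕ → W, (∀ t, r t = r (t + 1) ∨ H.Adj (r t) (r (t + 1))) →
    ∃ t, poss H σ r t = {r t}

lemma evade {W : Type} (H : SimpleGraph W) (σ : List ℕ → W) (I : List ℕ → W → W → Prop) {v0 v1 : W}
    (h0 : I [] v0 v1) (h : ∀ l v v', I l v v' → v ≠ v' ∧ H.dist (σ l) v' = H.dist (σ l) v ∧
      ∃ w w', H.Adj v w ∧ (H.Adj v w' ∨ H.Adj v' w') ∧ I (H.dist (σ l) v :: l) w w') :
    ∃ r : ℕ → W, (∀ t, r t = r (t + 1) ∨ H.Adj (r t) (r (t + 1))) ∧ ∀ t, poss H σ r t ≠ {r t} := by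
  choose h1 h2 f g h3 h4 h5 using h
  let s : ℕ → {x : List ℕ × W × W // I x.1 x.2.1 x.2.2} := fun t => Nat.rec ⟨([], v0, v1), h0⟩
    (fun _ x => ⟨(_, f _ _ _ x.2, g _ _ _ x.2), h5 _ _ _ x.2⟩) t
  have e : ∀ t, ans H σ (fun t => (s t).1.2.1) t = (s t).1.1 := fun t => by
    induction t with
    | zero => rfl
    | succ t ih => rw [ans, ih]
  have p : ∀ t, (s t).1.2.1 ∈ poss H σ (fun t => (s t).1.2.1) t ∧
      (s t).1.2.2 ∈ poss H σ (fun t => (s t).1.2.1) t := fun t => by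
    induction t with
    | zero => exact ⟨rfl, h2 _ _ _ h0⟩
    | succ t ih =>
      refine ⟨⟨⟨_, ih.1, Or.inr (h3 _ _ _ (s t).2)⟩, rfl⟩, ?_, by rw [e]; exact h2 _ _ _ (s (t + 1)).2⟩
      exact (h4 _ _ _ (s t).2).elim (fun h => ⟨_, ih.1, Or.inr h⟩) fun h => ⟨_, ih.2, Or.inr h⟩
  exact ⟨fun t => (s t).1.2.1, fun t => Or.inr (h3 _ _ _ (s t).2),
    fun t h => h1 _ _ _ (s t).2 (h ▸ (p t).2 : _ ∈ ({_} : Set W)).symm⟩

section
variable {V : Type} [DecidableEq V] {G : SimpleGraph V} {m : ℕ}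

/-- Vertex type of the subdivision. -/
abbrev Wt (G : SimpleGraph V) (m : ℕ) :=
  {f : V → ℕ // ∃ u v i, (u = v ∨ G.Adj u v) ∧ i ≤ m ∧ f = pt m u v i}

/-- Points of a thread. -/
def P (m : ℕ) {u v : V} (h : G.Adj u v) (i : ℕ) : Wt G m :=
  ⟨pt m u v (min i m), u, v, _, Or.inr h, min_le_right _ _, rfl⟩

/-- Branch vertices. -/
def B (G : SimpleGraph V) (m : ℕ) (u : V) : Wt G m := ⟨pt m u u 0, u, u, 0, Or.inl rfl, by simp, rfl⟩

lemma Pv {u v : V} (h : G.Adj u v) {i : ℕ} (hi : i ≤ m) : (P m h i).1 = pt m u v i := by simp [P, hi]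

lemma P0 {u v : V} (h : G.Adj u v) : P m h 0 = B G m u := Subtype.ext (by simp [P, B, pt])
lemma Pm {u v : V} (h : G.Adj u v) : P m h m = B G m v := Subtype.ext (by simp [P, B, pt])

lemma pt_ap (u v z : V) (i : ℕ) : pt m u v i z = (if z = u then m - i else 0) + if z = v then i else 0 := by
  simp [pt, Pi.single_apply]

lemma Psymm {u v : V} (h : G.Adj u v) {i : ℕ} (hi : i ≤ m) : P m h i = P m h.symm (m - i) :=
  Subtype.ext (by simp [P, pt, hi, add_comm, Nat.sub_sub_self hi])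

lemma Padj {u v : V} (h : G.Adj u v) {i : ℕ} (hi : i < m) :
    (subdiv G m).Adj (P m h i) (P m h (i + 1)) := by
  refine ⟨fun e => ?_, Or.inl ⟨u, v, i, h, hi, by simp [P, hi.le], by simp [P, Nat.succ_le_of_lt hi]⟩⟩
  have := congrFun (congrArg Subtype.val e) v
  simp [P, pt_ap, h.ne', hi.le, Nat.succ_le_of_lt hi] at this

lemma Pnb {u v : V} (h : G.Adj u v) {i : ℕ} (hi : i + 1 < m) {q : Wt G m}
    (hq : (subdiv G m).Adj (P m h (i + 1)) q) : q = P m h i ∨ q = P m h (i + 2) := by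
  have hne := h.ne
  have k : ∀ x y j, x ≠ y → j ≤ m → pt m u v (i + 1) = pt m x y j →
      (x = u ∧ y = v ∧ j = i + 1) ∨ (x = v ∧ y = u ∧ j + i + 1 = m) := by
    intro x y j h1 h2 h3
    have a1 := congrFun h3 u
    have a2 := congrFun h3 v
    simp only [pt_ap] at a1 a2
    grind
  obtain ⟨-, ⟨x, y, j, h1, h2, h3, h4⟩ | ⟨x, y, j, h1, h2, h4, h3⟩⟩ := hq <;>
    simp only [P, min_eq_left hi.le] at h3
  · rcases k x y j h1.ne h2.le h3 with ⟨rfl, rfl, rfl⟩ | ⟨rfl, rfl, h5⟩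
    · exact Or.inr (Subtype.ext (by rw [h4, Pv _ (by omega)]))
    · refine Or.inl (Subtype.ext ?_)
      rw [h4, Psymm h (by omega), Pv _ (by omega)]
      congr 1; omega
  · rcases k x y (j + 1) h1.ne h2 h3 with ⟨rfl, rfl, h5⟩ | ⟨rfl, rfl, h5⟩
    · exact Or.inl (Subtype.ext (by rw [h4, Pv _ (by omega)]; congr 1; omega))
    · refine Or.inr (Subtype.ext ?_)
      rw [h4, Psymm h (by omega), Pv _ (by omega)]
      congr 1; omega

lemma Pwalk {u v : V} (h : G.Adj u v) : ∀ i ≤ m, ∃ p : (subdiv G m).Walk (P m h i) (B G m u), p.length = i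
  | 0, _ => ⟨(Walk.nil).copy rfl (P0 h), by simp⟩
  | i + 1, hi => let ⟨p, hp⟩ := Pwalk h i (by omega); ⟨.cons (Padj h hi).symm p, by simp [hp]⟩

lemma rep (hG : ∀ u, ∃ v, G.Adj u v) (p : Wt G m) : ∃ u v, ∃ h : G.Adj u v, ∃ i ≤ m, p = P m h i := by
  obtain ⟨_, u, v, i, rfl | h, hi, rfl⟩ := p
  · obtain ⟨v, h⟩ := hG u
    refine ⟨u, v, h, 0, by simp, Subtype.ext (funext fun z => ?_)⟩
    simp only [P, pt_ap]
    split_ifs <;> omega
  · exact ⟨u, v, h, i, hi, Subtype.ext (by simp [P, hi])⟩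

lemma conn (hG : ∀ u, ∃ v, G.Adj u v) (hc : G.Connected) : (subdiv G m).Connected := by
  have k : ∀ u v, (subdiv G m).Reachable (B G m u) (B G m v) := fun u v => by
    obtain ⟨p⟩ := hc u v
    induction p with
    | nil => rfl
    | cons h p ih =>
      obtain ⟨q, -⟩ := Pwalk h m le_rfl
      exact (Pm (m := m) h ▸ q.reachable.symm).trans ih
  haveI : Nonempty (Wt G m) := hc.nonempty.map (B G m)
  refine ⟨fun p q => ?_⟩
  obtain ⟨u, v, h, i, hi, rfl⟩ := rep hG p
  obtain ⟨x, y, h', j, hj, rfl⟩ := rep hG q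
  obtain ⟨a, -⟩ := Pwalk h i hi
  obtain ⟨b, -⟩ := Pwalk h' j hj
  exact (a.reachable.trans (k _ _)).trans b.reachable.symm

lemma dform (hc : (subdiv G m).Connected) {u v : V} (h : G.Adj u v) (p : Wt G m)
    (hp : ∀ i, 0 < i → i < m → p ≠ P m h i) {j : ℕ} (hj : j ≤ m) :
    (subdiv G m).dist p (P m h j) =
      min ((subdiv G m).dist p (B G m u) + j) ((subdiv G m).dist p (B G m v) + (m - j)) := by
  refine le_antisymm (le_min ?_ ?_) ?_
  · obtain ⟨q, hq⟩ := Pwalk h j hj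
    exact (hc.dist_triangle (v := B G m u)).trans (by
      rw [SimpleGraph.dist_comm (u := B G m u)]; simpa [hq] using dist_le q)
  · obtain ⟨q, hq⟩ := Pwalk (m := m) h.symm (m - j) (by omega)
    rw [Psymm h hj]
    exact (hc.dist_triangle (v := B G m v)).trans (by
      rw [SimpleGraph.dist_comm (u := B G m v)]; simpa [hq] using dist_le q)
  · generalize hn : (subdiv G m).dist p (P m h j) = n
    induction n generalizing j with
    | zero =>
      have := (hc.dist_eq_zero_iff).1 hn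
      rcases Nat.eq_zero_or_pos j with rfl | h0
      · simp [this, P0]
      · obtain rfl : j = m := le_antisymm hj (not_lt.1 fun h1 => hp j h0 h1 this)
        simp [this, Pm]
    | succ n ih =>
      rcases j with _ | j
      · rw [← hn, P0]; simp
      rcases hj.lt_or_eq with h1 | rfl
      swap
      · rw [← hn, Pm]; simp
      obtain ⟨w, hw⟩ := hc.exists_walk_length_eq_dist (P m h (j + 1)) p
      rw [SimpleGraph.dist_comm, hn] at hw
      cases w with
      | nil => simp at hw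
      | cons a w =>
        have h2 := dist_le w
        have h3 := hc.dist_triangle (u := p) (w := P m h (j + 1)) (v := _)
          |>.trans (add_le_add_right (dist_eq_one_iff_adj.2 a.symm).le _)
        rw [SimpleGraph.dist_comm] at h2
        simp only [Walk.length_cons] at hw
        rcases Pnb h h1 a with rfl | rfl
        · have := ih (j := j) (by omega) (by omega); omega
        · have := ih (j := j + 2) (by omega) (by omega); omega

lemma Bge (hc : (subdiv G m).Connected) {u v : V} (h : u ≠ v) :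
    m ≤ (subdiv G m).dist (B G m u) (B G m v) := by
  have lo : ∀ x y (p : (subdiv G m).Walk x y), x.1 u ≤ y.1 u + p.length := by
    intro x y p
    induction p with
    | nil => simp
    | cons a p ih =>
      rw [Walk.length_cons]
      obtain ⟨-, ⟨x, y, j, h1, h2, h3, h4⟩ | ⟨x, y, j, h1, h2, h4, h3⟩⟩ := a <;>
        rw [h4] at ih <;> rw [h3] <;> simp only [pt_ap] at ih ⊢ <;>
        split_ifs at ih ⊢ <;> omega
  obtain ⟨w, hw⟩ := hc.exists_walk_length_eq_dist (B G m u) (B G m v)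
  rw [← hw]
  simpa [B, pt_ap, h] using lo _ _ w

lemma Ble {u v : V} (h : u = v ∨ G.Adj u v) : (subdiv G m).dist (B G m u) (B G m v) ≤ m := by
  rcases h with rfl | h
  · simp
  · obtain ⟨q, hq⟩ := Pwalk h.symm m le_rfl
    rw [← Pm h.symm]
    exact (dist_le q).trans hq.le

lemma dB (hc : (subdiv G m).Connected) {x y : V} (h : G.Adj x y) (b : V) {s : ℕ} (hs : s ≤ m) :
    (subdiv G m).dist (P m h s) (B G m b) = min ((subdiv G m).dist (B G m b) (B G m x) + s)
      ((subdiv G m).dist (B G m b) (B G m y) + (m - s)) := by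
  rw [SimpleGraph.dist_comm]
  refine dform hc h _ (fun i h1 h2 e => ?_) hs
  have a1 := congrFun (congrArg Subtype.val e) x
  have a2 := congrFun (congrArg Subtype.val e) y
  have := h.ne
  simp only [B, P, pt_ap, min_eq_left h2.le] at a1 a2
  grind

end

/-- A clique of codes together with forty landmarks. -/
def G0 : SimpleGraph (Finset (Fin 40) ⊕ Fin 40) where
  Adj
    | .inl a, .inl b => a ≠ b
    | .inl a, .inr w => w ∉ a
    | .inr w, .inl a => w ∉ a
    | .inr _, .inr _ => False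
  symm := ⟨by rintro (a | a) (b | b) h; exacts [Ne.symm h, h, h, h]⟩
  loopless := ⟨by rintro (a | a) h; exacts [h rfl, h]⟩

lemma G0n (u) : ∃ v, G0.Adj u v := by
  rcases u with a | w
  · obtain ⟨b, h⟩ := exists_ne a
    exact ⟨.inl b, h.symm⟩
  · exact ⟨.inl ∅, notMem_empty _⟩

lemma G0c : G0.Connected := by
  have : ∀ u, G0.Reachable u (.inl ∅) := by
    rintro (a | w)
    · by_cases h : a = ∅
      · rw [h]
      · exact Adj.reachable (show G0.Adj (.inl a) (.inl ∅) from h)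
    · exact Adj.reachable (show G0.Adj (.inr w) (.inl ∅) from notMem_empty _)
  exact ⟨fun u v => (this u).trans (this v).symm⟩

lemma res : Resolving G0 (univ.map ⟨Sum.inr, Sum.inr_injective⟩) := by
  intro u v h
  simp only [mem_map, mem_univ, true_and, Function.Embedding.coeFn_mk, forall_exists_index,
    forall_apply_eq_imp_iff] at h
  rcases u with a | w
  · rcases v with b | w
    · congr 1
      ext w
      have := dist_eq_one_iff_adj (G := G0) (u := .inl a) (v := .inr w)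
      rw [h w, dist_eq_one_iff_adj] at this
      exact not_iff_not.1 this.symm
    · exact G0c.dist_eq_zero_iff.1 (by rw [h w, dist_self])
  · exact (G0c.dist_eq_zero_iff.1 (by rw [← h w, dist_self])).symm

open Classical in
/-- Position on the thread between two codes. -/
noncomputable def Q (m : ℕ) (a b : Finset (Fin 40)) (j : ℕ) : Wt G0 m :=
  if h : a ≠ b then P m (show G0.Adj (.inl a) (.inl b) from h) j else B G0 m (.inl a)

/-- Answers along a thread. -/
noncomputable def A {m : ℕ} (σ : List ℕ → Wt G0 m) (l : List ℕ) (a b : Finset (Fin 40)) : ℕ → List ℕ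
  | 0 => l
  | j + 1 => (subdiv G0 m).dist (σ (A σ l a b j)) (Q m a b (j + 1)) :: A σ l a b j

lemma step {m : ℕ} (p : Wt G0 m) (a : Finset (Fin 40)) {j : ℕ} (hj : j ≤ m) :
    ∃ (L : Finset (Fin 40)) (E : Finset (Finset (Fin 40))) (d : ℕ), #L ≤ 1 ∧ (2 * j ≤ m → L ⊆ a) ∧
      #E ≤ 2 ∧ ∀ b, b ≠ a → Disjoint b L → b ∉ E → (subdiv G0 m).dist p (Q m a b j) = d := by
  have hc : (subdiv G0 m).Connected := conn G0n G0c
  obtain ⟨x, y, h, s, hs, rfl⟩ : ∃ x y, ∃ h : G0.Adj x (.inl y), ∃ s ≤ m, p = P m h s := by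
    obtain ⟨x, y | y, h, s, hs, rfl⟩ := rep G0n p
    · exact ⟨x, y, h, s, hs, rfl⟩
    · rcases x with x | x
      · exact ⟨_, x, h.symm, m - s, by omega, Psymm h hs⟩
      · exact h.elim
  have f : ∀ b, b ≠ a → .inl b ≠ x → b ≠ y → (subdiv G0 m).dist (P m h s) (Q m a b j) =
      min ((subdiv G0 m).dist (P m h s) (B G0 m (.inl a)) + j)
        (min ((subdiv G0 m).dist (B G0 m (.inl b)) (B G0 m x) + s) (m + (m - s)) + (m - j)) := by
    intro b h1 h2 h3
    rw [Q, dif_pos h1.symm, dform hc _ _ (fun i h4 h5 e => ?_) hj, dB hc h (.inl b) hs,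
      le_antisymm (Ble (Or.inr (show G0.Adj (.inl b) (.inl y) from h3))) (Bge hc (by simpa using h3))]
    have a1 := congrFun (congrArg Subtype.val e) (.inl b)
    simp [P, pt_ap, h1, h2, h3, h5.le] at a1
    omega
  have g : ∀ b, G0.Adj (.inl b) x → (subdiv G0 m).dist (B G0 m (.inl b)) (B G0 m x) = m :=
    fun b hb => le_antisymm (Ble (Or.inr hb)) (Bge hc hb.ne)
  rcases x with x | w
  · refine ⟨∅, {x, y}, min ((subdiv G0 m).dist (P m h s) (B G0 m (.inl a)) + j)
      (min (m + s) (m + (m - s)) + (m - j)), by simp, by simp, card_le_two, fun b h1 _ h2 => ?_⟩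
    simp only [mem_insert, mem_singleton, not_or] at h2
    rw [f b h1 (by simpa using h2.1) h2.2, g b h2.1]
  by_cases h0 : 2 * j ≤ m → w ∈ a
  · refine ⟨{w}, {y}, min ((subdiv G0 m).dist (P m h s) (B G0 m (.inl a)) + j)
      (min (m + s) (m + (m - s)) + (m - j)), by simp, by simpa using h0, by simp, fun b h1 h2 h3 => ?_⟩
    rw [f b h1 (by simp) (by simpa using h3), g b (by simpa [G0] using h2)]
  push Not at h0
  refine ⟨∅, {y}, (subdiv G0 m).dist (P m h s) (B G0 m (.inl a)) + j, by simp, by simp, by simp,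
    fun b h1 _ h3 => ?_⟩
  rw [f b h1 (by simp) (by simpa using h3), dB hc h (.inl a) hs, g a h0.2]
  have a1 := Bge hc (show Sum.inl b ≠ Sum.inr w by simp)
  have a2 : (subdiv G0 m).dist (B G0 m (.inl a)) (B G0 m (.inl y)) ≤ m := Ble (by
    by_cases e : a = y
    · exact Or.inl (by rw [e])
    · exact Or.inr e)
  omega

lemma phase {m : ℕ} (hm : m ≤ 41) (σ : List ℕ → Wt G0 m) (l : List ℕ) (a : Finset (Fin 40))
    (ha : #a ≤ 2) : ∃ b b', #b ≤ 2 ∧ b ≠ b' ∧ a ≠ b ∧ a ≠ b' ∧ ∀ j ≤ m, A σ l a b j = A σ l a b' j := by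
  have k : ∀ j ≤ m, ∃ (U : Finset (Fin 40)) (E : Finset (Finset (Fin 40))), 38 ≤ #U + (j - m / 2) ∧
      Disjoint U a ∧ #E ≤ 2 * j + 1 ∧ a ∈ E ∧ ∀ b ∈ powersetCard 2 U \ E, ∀ b' ∈ powersetCard 2 U \ E,
        ∀ i ≤ j, A σ l a b i = A σ l a b' i := by
    intro j
    induction j with
    | zero =>
      refine fun _ => ⟨aᶜ, {a}, ?_, disjoint_compl_left, by simp, by simp, fun b _ b' _ i hi => ?_⟩
      · rw [card_compl, Fintype.card_fin]; omega
      · obtain rfl : i = 0 := by omega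
        rfl
    | succ j ih =>
      intro hj
      obtain ⟨U, E, h1, h2, h3, h4, h5⟩ := ih (by omega)
      by_cases h0 : ∃ b0, b0 ∈ powersetCard 2 U \ E
      swap
      · exact ⟨U, E, by omega, h2, by omega, h4, fun b hb => (h0 ⟨b, hb⟩).elim⟩
      obtain ⟨b0, hb0⟩ := h0
      obtain ⟨L, E', d, a1, a2, a3, a4⟩ := step (σ (A σ l a b0 j)) a hj
      have c : ∀ b ∈ powersetCard 2 (U \ L) \ (E ∪ E'), b ∈ powersetCard 2 U \ E ∧
          A σ l a b (j + 1) = d :: A σ l a b0 j := fun b hb => by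
        simp only [mem_sdiff, mem_powersetCard, mem_union, not_or, subset_sdiff] at hb
        have : b ∈ powersetCard 2 U \ E := by simp [hb]
        refine ⟨this, ?_⟩
        rw [A, h5 b this b0 hb0 j le_rfl, a4 b (fun e => hb.2.1 (e ▸ h4)) hb.1.1.2 hb.2.2]
      refine ⟨U \ L, E ∪ E', ?_, h2.mono_left sdiff_subset, (card_union_le _ _).trans (by omega),
        mem_union_left _ h4, fun b hb b' hb' i hi => ?_⟩
      · by_cases h6 : 2 * (j + 1) ≤ m
        · rw [sdiff_eq_self_of_disjoint (h2.mono_right (a2 h6))]; omega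
        · have := le_card_sdiff L U; omega
      · rcases hi.lt_or_eq with h6 | rfl
        · exact h5 b (c b hb).1 b' (c b' hb').1 i (by omega)
        · rw [(c b hb).2, (c b' hb').2]
  obtain ⟨U, E, h1, -, h3, h4, h5⟩ := k m le_rfl
  have h6 := le_card_sdiff E (powersetCard 2 U)
  have h7 : (17).choose 2 ≤ (#U).choose 2 := Nat.choose_le_choose 2 (by omega)
  rw [card_powersetCard] at h6
  norm_num [Nat.choose] at h7
  obtain ⟨b, hb, b', hb', h8⟩ := one_lt_card.1 (show 1 < #(powersetCard 2 U \ E) by omega)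
  exact ⟨b, b', (mem_powersetCard.1 (mem_sdiff.1 hb).1).2.le, h8, fun e => (mem_sdiff.1 hb).2 (e ▸ h4),
    fun e => (mem_sdiff.1 hb').2 (e ▸ h4), h5 b hb b' hb'⟩

theorem result : ∃ (V : Type) (_ : Fintype V) (_ : DecidableEq V) (G : SimpleGraph V) (μ : ℕ),
    G.Connected ∧ IsLeast {k | ∃ S : Finset V, Resolving G S ∧ #S = k} μ ∧
      ¬ CopWin (subdiv G (μ + 1)) := by
  have hne : {k | ∃ S, Resolving G0 S ∧ #S = k}.Nonempty := ⟨_, _, res, rfl⟩
  refine ⟨_, inferInstance, inferInstance, G0, sInf _, G0c, ⟨Nat.sInf_mem hne, fun _ => Nat.sInf_le⟩, ?_⟩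
  have hm : sInf {k | ∃ S, Resolving G0 S ∧ #S = k} ≤ 40 := Nat.sInf_le ⟨_, res, by simp⟩
  generalize sInf {k | ∃ S, Resolving G0 S ∧ #S = k} = μ at hm
  rintro ⟨σ, hσ⟩
  obtain ⟨b, b', h0⟩ := phase (by omega) σ [] ∅ (by simp)
  have q : ∀ {a b : Finset (Fin 40)} (h : a ≠ b) j, Q (μ + 1) a b j =
    P (μ + 1) (show G0.Adj (.inl a) (.inl b) from h) j := fun h j => dif_pos h
  obtain ⟨r, h1, h2⟩ := evade _ σ (fun l v v' => ∃ a b b' l0 j, (#b ≤ 2 ∧ b ≠ b' ∧ a ≠ b ∧ a ≠ b' ∧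
      ∀ j ≤ μ + 1, A σ l0 a b j = A σ l0 a b' j) ∧ j ≤ μ ∧ l = A σ l0 a b j ∧ v = Q _ a b (j + 1) ∧
      v' = Q _ a b' (j + 1)) ⟨∅, b, b', [], 0, h0, by simp, rfl, rfl, rfl⟩ (by
    rintro _ _ _ ⟨a, b, b', l0, j, h, hj, rfl, rfl, rfl⟩
    obtain ⟨h1, h2, h3, h4, h5⟩ := id h
    refine ⟨fun e => ?_, ?_, ?_⟩
    · have := congrFun (congrArg Subtype.val e) (.inl b)
      simp [q h3, q h4, P, pt_ap, h2, h3.symm] at this
    · have := h5 (j + 1) (by omega)
      rw [A, A, ← h5 j (by omega)] at this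
      exact (List.cons.inj this).1.symm
    rcases hj.lt_or_eq with h6 | rfl
    · refine ⟨_, _, ?_, Or.inr ?_, a, b, b', l0, j + 1, h, h6, rfl, rfl, rfl⟩
      · rw [q h3, q h3]; exact Padj _ (by omega)
      · rw [q h4, q h4]; exact Padj _ (by omega)
    · obtain ⟨c, c', h7⟩ := phase (by omega) σ (A σ l0 a b (j + 1)) b h1
      refine ⟨_, _, ?_, Or.inl ?_, b, c, c', _, 0, h7, by simp, rfl, rfl, rfl⟩
      · rw [q h3, q h7.2.2.1, Pm, ← P0 (show G0.Adj (.inl b) (.inl c) from h7.2.2.1)]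
        exact Padj _ (by omega)
      · rw [q h3, q h7.2.2.2.1, Pm, ← P0 (show G0.Adj (.inl b) (.inl c') from h7.2.2.2.1)]
        exact Padj _ (by omega))
  obtain ⟨t, ht⟩ := hσ r h1
  exact h2 t ht

end Pool.Agent.Results.MP_e8bb91_co.No
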